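import Pool.Agent.HopfRem.Final
import Pool.Agent.HopfFin.Schoen

/-!
# Smooth structures on `S¹ × S³` and on the twisted product which are standard off a small set

Let `P` be the group of the homeomorphisms of `ℝ⁴` which fix `0` and restrict to diffeomorphisms of
`ℝ⁴ ∖ 0`, and `D` the subgroup of the orientation preserving ones. A smooth manifold `M` has
a homeomorphism onto `X = S¹ × S³` (or the twisted product) which is a local diffeomorphism off a
closed set `A`, with `A` or its image of length zero or `A` in an open ball of `M`, if and only if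
`M` is the orbit space of some `G` in `D` (in `P ∖ D`) which maps the closed unit ball into the open
one. The diffeomorphism type of `M` is the conjugacy class of `G` in `P / [D, D]`, and all classes
occur. So all such `M` are diffeomorphic to `S¹ × S³` if and only if `D` is perfect, and `[D, D]`,
which is perfect, consists of the elements which agree near infinity with diffeomorphisms of `ℝ⁴`.
`D` is perfect if and only if the smooth Schoenflies conjecture holds in dimension four.
-/

set_option autoImplicit false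

namespace Pool.Agent.Results.MP_6db3ee_gt.Classification

open Pool.Agent.HopfCov Pool.Agent.HopfCov.Smooth

theorem result :
    (derD = grpD ↔ Schoenflies) ∧
    ((∀ M X : Mfd4, DiffeoS1S3 X → AlmostDiffeo M X → DiffeoS1S3 M) ↔ derD = grpD) ∧
    ((∀ M X : Mfd4, TwistedProduct X → AlmostDiffeo M X → TwistedProduct M) ↔ derP = grpD) ∧
    (derD = grpD → derP = grpD) ∧
    (∀ M X : Mfd4, DiffeoS1S3 X ∨ TwistedProduct X → (AlmostDiffeo M X ↔ OffPointTo M X)) ∧
    (∀ M X : Mfd4, DiffeoS1S3 X →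
      (AlmostDiffeo M X ↔ ∃ (p : Punctured → M) (G : Homeo4), Orbit M p G ∧ G ∈ grpD)) ∧
    (∀ M X : Mfd4, TwistedProduct X →
      (AlmostDiffeo M X ↔ ∃ (p : Punctured → M) (G : Homeo4), Orbit M p G ∧ G ∉ grpD)) ∧
    (∀ (M : Mfd4) (p : Punctured → M), (∃ G : Homeo4, Orbit M p G) ↔ EmbedsUnitSphere M p) ∧
    (∀ (M : Mfd4) (p : Punctured → M) (G : Homeo4), Orbit M p G →
      (DiffeoS1S3 M ↔ G ∈ derD) ∧ (TwistedProduct M ↔ G * rho⁻¹ ∈ derP) ∧
      (∀ (M' : Mfd4) (p' : Punctured → M') (G' : Homeo4), Orbit M' p' G' →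
        (Diffeomorphic M M' ↔ ∃ k ∈ grpP, G' * (k * G * k⁻¹)⁻¹ ∈ derD)) ∧
      ∀ (m : ℕ) (N : Mfd4) (q : N → M), 0 < m → Closed N → Cover m q →
        ∃ p' : Punctured → N, Orbit N p' (G ^ m) ∧ ∀ x, q (p' x) = p x) ∧
    (∀ h ∈ grpP, ∃ (M : Mfd4) (p : Punctured → M) (G : Homeo4),
      Orbit M p G ∧ G * h⁻¹ ∈ derD) ∧
    (∀ h : Homeo4, h ∈ derD ↔ h ∈ grpD ∧ Extendable h) ∧
    ⁅derD, derD⁆ = derD ∧
    (∀ h ∈ derD, ∃ a ∈ derD, ∃ b ∈ derD, ∃ c ∈ derD, ∃ d ∈ derD,
      h = (a * b * a⁻¹ * b⁻¹) * (c * d * c⁻¹ * d⁻¹)) :=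
  ⟨Pool.Agent.HopfFin.schoenflies_iff, uniq_pos, uniq_neg, pos_neg,
    fun _ _ hX => almost_off hX, fun _ _ hX => almost_pos hX,
    fun _ _ hX => almost_neg hX, fun _ _ => embeds_iff,
    fun _ _ _ h => ⟨std_final h, twisted_final h, fun _ _ _ h' => conj_final h h',
      fun _ _ _ hm hN hq => cover_final h hm hN hq⟩,
    fun _ hh => realise hh, fun _ => derD_iff, perfect_derD, fun _ hh => two_commutators hh⟩

end Pool.Agent.Results.MP_6db3ee_gt.Classification
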