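import Pool.Agent.HopfFree.Std

/-!
# Smooth structures on `S¹ × S³` and the twisted product with a standard end

Let `X` be `S¹ × S³` or the twisted product, and let `C` be the class of the smooth manifolds `M`
which have a homeomorphism onto `X` which is a local diffeomorphism at the points over a certain
circle in `X`, and a smooth covering with a standard end. Suppose that some member of the class is
not standard off one point (no homeomorphism onto `X` is a local diffeomorphism off one point).
Then some member `M` which is not standard off one point has only standard coverings with at least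
two sheets (`X` twisted: with an odd number of sheets, at least three), and for every `n ≥ 2` (`n`
odd if `X` is twisted) there are infinitely many pairwise non-diffeomorphic members which are not
standard off one point, and all of whose coverings with many sheets or with a number of sheets
divisible by `n` are standard. Let `P` be the group of the homeomorphisms of `ℝ⁴` which fix `0` and
are diffeomorphisms off `0`, and `D` the subgroup of the orientation preserving ones. The class is
finite up to diffeomorphism if and only if all its members are standard off one point and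
`D / [D, D]` (`D / [P, P]` for the twisted product) is finite. The manifolds `S¹ × S³` and the
twisted product are the only members of their classes if and only if the smooth Schoenflies problem
in dimension four has a positive answer and the members of the classes all of whose coverings with
at least two sheets are standard are standard.
-/

set_option autoImplicit false

namespace Pool.Agent.Results.MP_6db3ee_gt.FiniteOrOffPoint

open Pool.Agent.HopfCov.Smooth Pool.Agent.HopfEnd Pool.Agent.HopfFree

theorem result :
    ((∃ M : Mfd4, ClassS M ∧ ¬ OffPoint M) →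
      (∃ M : Mfd4, ClassS M ∧ ¬ OffPoint M ∧ ∀ m ≥ 2, StdAt m M) ∧
      ∀ n ≥ 2, ∃ N : ℕ → Mfd4, (∀ k, ClassS (N k) ∧ ¬ OffPoint (N k) ∧
        ∃ m₀, ∀ m > 0, m₀ ≤ m ∨ n ∣ m → StdAt m (N k)) ∧
        ∀ i j, i ≠ j → ¬ Diffeomorphic (N i) (N j)) ∧
    ((∃ M : Mfd4, ClassT M ∧ ¬ OffPointT M) →
      (∃ M : Mfd4, ClassT M ∧ ¬ OffPointT M ∧ ∀ m ≥ 2, Odd m → StdAtT m M) ∧
      ∀ n ≥ 2, Odd n → ∃ N : ℕ → Mfd4, (∀ k, ClassT (N k) ∧ ¬ OffPointT (N k) ∧
        ∃ m₀, ∀ m > 0, m₀ ≤ m ∨ n ∣ m → StdAtT m (N k)) ∧
        ∀ i j, i ≠ j → ¬ Diffeomorphic (N i) (N j)) ∧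
    (FiniteUpToDiffeo ClassS ↔ (∀ M : Mfd4, ClassS M → OffPoint M) ∧ derD.relIndex grpD ≠ 0) ∧
    (FiniteUpToDiffeo ClassT ↔ (∀ M : Mfd4, ClassT M → OffPointT M) ∧ derP.relIndex grpD ≠ 0) ∧
    (((∀ M : Mfd4, ClassS M → DiffeoS1S3 M) ∧ ∀ M : Mfd4, ClassT M → TwistedProduct M) ↔
      Schoenflies ∧ (∀ M : Mfd4, ClassS M → (∀ m ≥ 2, StdAt m M) → DiffeoS1S3 M) ∧
        ∀ M : Mfd4, ClassT M → (∀ m ≥ 2, StdAtT m M) → TwistedProduct M) :=
  ⟨exotic_S, exotic_T, fin_S, fin_T, unique_std⟩

end Pool.Agent.Results.MP_6db3ee_gt.FiniteOrOffPoint
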