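import Pool.Agent.HopfEnd.Equiv

/-!
# One standard end of the universal covering

Let `M` be a smooth 4-manifold homeomorphic to `S¹ × S³` or to the twisted product. The universal
covering of `M` is diffeomorphic to `ℝ⁴ ∖ 0` if (and only if) one of its ends is standard, or it is
the complement of a point of a smooth manifold `R` homeomorphic to `ℝ⁴`, or some, or all large,
finite coverings of `M` are standard off one point. Such a manifold `R` is diffeomorphic to `ℝ⁴`.
-/

set_option autoImplicit false

namespace Pool.Agent.Results.MP_6db3ee_gt.OneStandardEnd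

open Pool.Agent.HopfCov Pool.Agent.HopfCov.Smooth

theorem result (M : Mfd4) (hM : HomeoS1S3 M ∨ HomeoTwisted M) :
    List.TFAE [Covers Punctured M,
      ∃ X : Mfd4, Covers X M ∧ OneEnd X,
      ∃ R X : Mfd4, HomeoR4 R ∧ PointComplement X R ∧ Covers X M,
      LargeCoversOff M,
      SomeCoverOff M] ∧
    ∀ R X : Mfd4, HomeoR4 R → PointComplement X R → Covers X M → Diffeomorphic R Euclid :=
  Pool.Agent.HopfEnd.characterisation hM

end Pool.Agent.Results.MP_6db3ee_gt.OneStandardEnd
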