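import Pool.Agent.HopfSPC.Statement4

/-!
# Smooth structures on `S¹ × S³` and the twisted product in terms of `S² ⊂ S⁴` and `RP² ⊂ RP⁴`

The definitions are in `Pool.Agent.HopfCov.Statement`, `Pool.Agent.HopfRem.Statement4`,
`Pool.Agent.HopfTw.Statement` (`OnRay`), `Pool.Agent.HopfEnd.Statement` (`PointComplement`,
`Euclid`), `Pool.Agent.HopfSPC.Statement`, `Pool.Agent.HopfSPC.Statement2` (`Projective`),
`Pool.Agent.HopfSPC.Surg2` (`SameComplement`) and `Pool.Agent.HopfSPC.Statement4` (`SmoothOver13`).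
-/

set_option autoImplicit false

open scoped ContDiff Topology Manifold
open Set Filter Metric

namespace Pool.Agent.Results.MP_6db3ee_gt.PoincareUnknotting

open Pool.Agent.HopfCov.Smooth

/-- First half, on `S¹ × S³`. Uniqueness of the smooth structure implies the smooth Poincaré
conjecture in dimension four and smooth unknotting of 2-spheres in `S⁴`. These two together are
equivalent to uniqueness in the class of the smooth manifolds with a homeomorphism to `S¹ × S³`
which is a local diffeomorphism over a circle `S¹ × v`; the first one alone is equivalent to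
uniqueness in the class in which the homeomorphism is a local diffeomorphism over a fibre `z × S³`.
Surgery on the circle: a manifold `M` of the first class and a homotopy sphere `N` with a
homeomorphism `f` to `S⁴` which is a local diffeomorphism over `S²` correspond to each other, their
complements are diffeomorphic, and `M` is standard if and only if `f` agrees near `f⁻¹(S²)` with a
diffeomorphism `N → S⁴`.

Second half, on the twisted product `X`. Uniqueness of the smooth structure implies that every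
homeomorphism to `RP⁴` which is smooth over `RP²` agrees near the preimage of `RP²` with a
diffeomorphism, and that every smooth manifold homeomorphic to `S⁴` is diffeomorphic to `ℝ⁴` after
removal of a point; the first statement is equivalent to uniqueness in the class of the smooth
manifolds with a homeomorphism to `X` which is a local diffeomorphism over the section. The smooth
Poincaré conjecture implies uniqueness in the class in which the homeomorphism is a local
diffeomorphism over the fibre. Surgery on the section, as above. -/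
theorem result :
    (((∀ M N : Mfd4, HomeoS1S3 M → HomeoS1S3 N → Diffeomorphic M N) →
        (∀ S : Mfd4, Nonempty (S ≃ₜ Sphere4) → Diffeomorphic S Sphere4) ∧
        ∀ f : Sphere4 ≃ₜ Sphere4, SmoothOver f Sphere2 → ∃ g, Straightens f Sphere2 g) ∧
      ((∀ (M : Mfd4) (h : M ≃ₜ Circle × S3) (v : S3),
          SmoothOver13 h {y | y.2 = v} → DiffeoS1S3 M) ↔
        (∀ S : Mfd4, Nonempty (S ≃ₜ Sphere4) → Diffeomorphic S Sphere4) ∧
        ∀ f : Sphere4 ≃ₜ Sphere4, SmoothOver f Sphere2 → ∃ g, Straightens f Sphere2 g) ∧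
      ((∀ (M : Mfd4) (h : M ≃ₜ Circle × S3) (z : Circle),
          SmoothOver13 h {y | y.1 = z} → DiffeoS1S3 M) ↔
        ∀ S : Mfd4, Nonempty (S ≃ₜ Sphere4) → Diffeomorphic S Sphere4) ∧
      (∀ (M : Mfd4) (h : M ≃ₜ Circle × S3) (v : S3), SmoothOver13 h {y | y.2 = v} →
        ∃ (N : Mfd4) (f : N ≃ₜ Sphere4), SmoothOver f Sphere2 ∧
          SameComplement (h ⁻¹' {y | y.2 = v}) (f ⁻¹' Sphere2) ∧
          (DiffeoS1S3 M ↔ ∃ g, Straightens f Sphere2 g)) ∧
      (∀ (N : Mfd4) (f : N ≃ₜ Sphere4), SmoothOver f Sphere2 →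
        ∃ (M : Mfd4) (h : M ≃ₜ Circle × S3) (v : S3), SmoothOver13 h {y | y.2 = v} ∧
          SameComplement (h ⁻¹' {y | y.2 = v}) (f ⁻¹' Sphere2) ∧
          (DiffeoS1S3 M ↔ ∃ g, Straightens f Sphere2 g))) ∧
    (∃ (X P : Mfd4) (p : Punctured → X) (q : Sphere4 → P), Orbit X p rho ∧ Projective P q) ∧
    ∀ (X P : Mfd4) (p : Punctured → X) (q : Sphere4 → P), Orbit X p rho → Projective P q →
      ((∀ M N : Mfd4, HomeoTwisted M → HomeoTwisted N → Diffeomorphic M N) →
        (∀ (N : Mfd4) (f : N ≃ₜ P), SmoothOver f (q '' Sphere2) →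
          ∃ g, Straightens f (q '' Sphere2) g) ∧
        ∀ S : Mfd4, Nonempty (S ≃ₜ Sphere4) → PointComplement Euclid S) ∧
      ((∀ (M : Mfd4) (h : M ≃ₜ X), SmoothOver h (p '' {y | OnRay (val y)}) → TwistedProduct M) ↔
        ∀ (N : Mfd4) (f : N ≃ₜ P), SmoothOver f (q '' Sphere2) →
          ∃ g, Straightens f (q '' Sphere2) g) ∧
      ((∀ S : Mfd4, Nonempty (S ≃ₜ Sphere4) → Diffeomorphic S Sphere4) →
        ∀ (M : Mfd4) (h : M ≃ₜ X), SmoothOver h (p '' {y | nrm (val y) = 1}) → TwistedProduct M) ∧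
      (∀ (M : Mfd4) (h : M ≃ₜ X), SmoothOver h (p '' {y | OnRay (val y)}) →
        ∃ (N : Mfd4) (f : N ≃ₜ P), SmoothOver f (q '' Sphere2) ∧
          SameComplement (h ⁻¹' (p '' {y | OnRay (val y)})) (f ⁻¹' (q '' Sphere2)) ∧
          (TwistedProduct M ↔ ∃ g, Straightens f (q '' Sphere2) g)) ∧
      ∀ (N : Mfd4) (f : N ≃ₜ P), SmoothOver f (q '' Sphere2) →
        ∃ (M : Mfd4) (h : M ≃ₜ X), SmoothOver h (p '' {y | OnRay (val y)}) ∧
          SameComplement (h ⁻¹' (p '' {y | OnRay (val y)})) (f ⁻¹' (q '' Sphere2)) ∧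
          (TwistedProduct M ↔ ∃ g, Straightens f (q '' Sphere2) g) := by
  have h1 : UniqueNearCircle ↔ SmoothPoincare ∧ SmoothUnknotting := Pool.Agent.HopfSPC.unique_iff
  refine ⟨⟨fun h => h1.1 (nearCircle_of_unique h), ?_, fibre_product, surg_product⟩, ?_, ?_⟩
  · refine Iff.trans ⟨fun h M ⟨h0, v, hv⟩ => h M h0 v hv, fun h M h0 v hv => h M ⟨h0, v, hv⟩⟩ h1
  · obtain ⟨X, hX⟩ := exists_twisted
    obtain ⟨p, hp⟩ := twistedProduct_iff.2 hX
    obtain ⟨P, q, hq⟩ := exists_projective
    exact ⟨X, P, p, q, hp, hq⟩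
  · intro X P p q hX hP
    obtain ⟨s1, s2⟩ := surg_twisted hX hP
    have h2 : (∀ (M : Mfd4) (h : M ≃ₜ X), SmoothOver h (p '' {y | OnRay (val y)}) →
        TwistedProduct M) ↔ ∀ (N : Mfd4) (f : N ≃ₜ P), SmoothOver f (q '' Sphere2) →
          ∃ g, Straightens f (q '' Sphere2) g := by
      constructor
      · intro h N f hf
        obtain ⟨M, h0, a1, -, a2⟩ := s2 N f hf
        exact a2.1 (h M h0 a1)
      · intro h M h0 hh
        obtain ⟨N, f, a1, -, a2⟩ := s1 M h0 hh
        exact a2.2 (h N f a1)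
    refine ⟨fun h => ?_, h2, fun h => fibre_twisted h hX, s1, s2⟩
    have h3 : UniqueNearSection := nearSection_of_unique h
    refine ⟨h2.1 fun M h0 hh => h3 M ⟨X, p, h0, hX, fun x y hxy hy => hh x ⟨y, hy, hxy.symm⟩⟩,
      fun S hS => Pool.Agent.HopfSPC.euclid_of_section h3 hS⟩

end Pool.Agent.Results.MP_6db3ee_gt.PoincareUnknotting
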